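import Pool.Agent.Y472.E.Defs
import Pool.Agent.Y288.CB.TB0

/-!
CB3-E-TBY: bound of the partial products of `2 cos χ - 2 cos (2 π t / N)` near a positive height.
-/

set_option autoImplicit false

namespace Pool.Agent.Y46.CB

open Filter Finset Topology MeasureTheory GapVol EvenVol EvenVol.LobIneq
open Pool.Agent.W711.HT Pool.Agent.Y472 Pool.Agent.W688.HT Pool.Agent.Y288.CB
open Pool.Agent.W709.VC (ell Lf)
open Pool.Agent.W440.VC (ell_cont cell cosh_pos' ell_low norm_factor log_factor)
open scoped Real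

/-! ### The integral `rhc` -/

/-- the integrand -/
lemma integrand {h b u s : ℝ} (hh : 0 < h) (hb : Real.cos b = -Real.cos u ∧ Real.sin b = Real.sin u)
    (hs : Real.sin (π * s) ≠ 0) :
    Real.log (‖Complex.cos (u + h * Complex.I) - (Real.cos (2 * π * s) : ℂ)‖ /
      (1 - Real.cos (2 * π * s))) =
      (ell h (b + 2 * π * s) + ell h (b - 2 * π * s)) / 2 + 2 * g (π * s) := by
  have h1 := fac b u h (2 * π * s) hb
  have h2 := log_factor (h := h) (b := b) (φ := 2 * π * s) hh le_rfl
  have h3 : (2 * Complex.cos (u + h * Complex.I) - 2 * (Real.cos (2 * π * s) : ℂ)) =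
      2 * (Complex.cos (u + h * Complex.I) - (Real.cos (2 * π * s) : ℂ)) := by ring
  rw [h3, norm_mul, Complex.norm_two] at h1
  have h4 : 1 - Real.cos (2 * π * s) = 2 * Real.sin (π * s) ^ 2 := by
    rw [show 2 * π * s = 2 * (π * s) by ring, Real.cos_two_mul, Real.cos_sq']
    ring
  have h5 : 0 < Real.sin (π * s) ^ 2 := by positivity
  have h6 : 0 < ‖Complex.cos (u + h * Complex.I) - (Real.cos (2 * π * s) : ℂ)‖ := by
    have := h2.1
    rw [← h1] at this
    linarith
  have h7 : ‖Complex.cos (u + h * Complex.I) - (Real.cos (2 * π * s) : ℂ)‖ /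
      (1 - Real.cos (2 * π * s)) =
      (2 * ‖Complex.cos (u + h * Complex.I) - (Real.cos (2 * π * s) : ℂ)‖) /
        (2 * Real.sin (π * s)) ^ 2 := by
    rw [h4]
    field_simp
  rw [h7, Real.log_div (by positivity) (by positivity), h1, h2.2, Real.log_pow]
  unfold g
  push_cast
  ring

lemma sin_pi_ae : ∀ᵐ s : ℝ, Real.sin (π * s) ≠ 0 := by
  have h1 : Tendsto (fun s : ℝ => π * s) (ae volume) (ae volume) := by
    have := (Homeomorph.mulLeft₀ π Real.pi_ne_zero)
    have hq : Measure.QuasiMeasurePreserving (fun s : ℝ => π * s) volume volume := by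
      refine ⟨by fun_prop, ?_⟩
      rw [Real.map_volume_mul_left Real.pi_ne_zero]
      exact Measure.smul_absolutelyContinuous
    exact hq.tendsto_ae
  exact h1.eventually sin_ae_ne

lemma rhc_eq {h b u : ℝ} (hh : 0 < h) (hb : Real.cos b = -Real.cos u ∧ Real.sin b = Real.sin u)
    (δ : ℝ) : rhc δ (u + h * Complex.I) =
      1 / (4 * π) * ((Lf h (b + 2 * π * δ) - Lf h b) + (Lf h b - Lf h (b - 2 * π * δ))) +
        2 / π * lob (π * δ) := by
  have hπ := Real.pi_pos
  have hc := ell_cont hh le_rfl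
  have h1 : rhc δ (u + h * Complex.I) = ∫ s in (0:ℝ)..δ,
      ((ell h (b + 2 * π * s) + ell h (b - 2 * π * s)) / 2 + 2 * g (π * s)) := by
    unfold rhc
    apply intervalIntegral.integral_congr_ae
    filter_upwards [sin_pi_ae] with s hs _
    exact integrand hh hb hs
  have c1 : Continuous fun s : ℝ => ell h (b + 2 * π * s) := hc.comp (by fun_prop)
  have c2 : Continuous fun s : ℝ => ell h (b - 2 * π * s) := hc.comp (by fun_prop)
  have i1 : IntervalIntegrable (fun s : ℝ => ell h (b + 2 * π * s)) volume 0 δ :=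
    c1.intervalIntegrable _ _
  have i2 : IntervalIntegrable (fun s : ℝ => ell h (b - 2 * π * s)) volume 0 δ :=
    c2.intervalIntegrable _ _
  have i3 : IntervalIntegrable (fun s : ℝ => 2 * g (π * s)) volume 0 δ := by
    have h2 : IntervalIntegrable (fun s : ℝ => g (π * s)) volume 0 δ := by
      have h3 := (g_int (π * 0) (π * δ)).comp_mul_left (c := π)
      have e0 : π * 0 / π = 0 := by simp
      have e1 : π * δ / π = δ := by field_simp
      rwa [e0, e1] at h3
    exact h2.const_mul 2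
  have j1 : ∫ s in (0:ℝ)..δ, ell h (b + 2 * π * s) =
      1 / (2 * π) * (Lf h (b + 2 * π * δ) - Lf h b) := by
    have h2 : (fun s : ℝ => ell h (b + 2 * π * s)) = fun s => ell h (b + (2 * π) * s) := by
      funext s; rfl
    rw [h2, intervalIntegral.integral_comp_add_mul (ell h) (by positivity : (2 * π) ≠ 0) b,
      smul_eq_mul, mul_zero, add_zero]
    unfold Lf
    rw [intervalIntegral.integral_interval_sub_left (hc.intervalIntegrable _ _)
      (hc.intervalIntegrable _ _), one_div]
  have j2 : ∫ s in (0:ℝ)..δ, ell h (b - 2 * π * s) =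
      1 / (2 * π) * (Lf h b - Lf h (b - 2 * π * δ)) := by
    have h2 : (fun s : ℝ => ell h (b - 2 * π * s)) = fun s => ell h (b - (2 * π) * s) := by
      funext s; rfl
    rw [h2, intervalIntegral.integral_comp_sub_mul (ell h) (by positivity : (2 * π) ≠ 0) b,
      smul_eq_mul, mul_zero, sub_zero]
    unfold Lf
    rw [intervalIntegral.integral_interval_sub_left (hc.intervalIntegrable _ _)
      (hc.intervalIntegrable _ _), one_div]
  have j3 : ∫ s in (0:ℝ)..δ, 2 * g (π * s) = 2 / π * lob (π * δ) := by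
    rw [intervalIntegral.integral_const_mul, intervalIntegral.integral_comp_mul_left g hπ.ne',
      smul_eq_mul, mul_zero, ← lob_eq]
    field_simp
  rw [h1, intervalIntegral.integral_add ((i1.add i2).div_const 2) i3,
    intervalIntegral.integral_div, intervalIntegral.integral_add i1 i2, j1, j2, j3]
  field_simp
  ring

/-! ### Change of the height -/

lemma ell_diff {h y₀ t : ℝ} (hy : 0 < y₀) (hh : y₀ ≤ h) :
    ell h t - ell y₀ t ≤ (Real.cosh h - Real.cosh y₀) / (Real.cosh y₀ - 1) := by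
  have hq := cosh_pos' hy
  have h1 := ell_low (τ := t) hy le_rfl
  have h2 := ell_low (τ := t) hy hh
  have h3 : Real.cosh y₀ ≤ Real.cosh h := by
    rw [Real.cosh_le_cosh, abs_of_pos hy, abs_of_pos (hy.trans_le hh)]
    exact hh
  set A := 2 * Real.cosh y₀ + 2 * Real.cos t with hA
  set B := 2 * Real.cosh h + 2 * Real.cos t with hB
  have hA0 : 0 < A := by linarith
  have hB0 : 0 < B := by linarith
  have h4 : ell h t - ell y₀ t = Real.log (B / A) := by
    unfold ell
    rw [Real.log_div hB0.ne' hA0.ne']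
  rw [h4]
  refine (Real.log_le_sub_one_of_pos (by positivity)).trans ?_
  have h5 : B / A - 1 = (B - A) / A := by
    field_simp
  have h6 : B - A = 2 * (Real.cosh h - Real.cosh y₀) := by rw [hA, hB]; ring
  rw [h5, h6]
  have h7 : 2 * (Real.cosh h - Real.cosh y₀) / A ≤
      2 * (Real.cosh h - Real.cosh y₀) / (2 * (Real.cosh y₀ - 1)) := by
    apply div_le_div_of_nonneg_left (by linarith) (by linarith) h1
  refine h7.trans (le_of_eq ?_)
  field_simp

lemma Lf_diff {h y₀ a c : ℝ} (hy : 0 < y₀) (hh : y₀ ≤ h) (hac : a ≤ c) :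
    Lf h c - Lf h a ≤ Lf y₀ c - Lf y₀ a +
      (c - a) * ((Real.cosh h - Real.cosh y₀) / (Real.cosh y₀ - 1)) := by
  have hc := ell_cont (hy.trans_le hh) le_rfl
  have hc' := ell_cont hy le_rfl
  unfold Lf
  rw [intervalIntegral.integral_interval_sub_left (hc.intervalIntegrable _ _)
      (hc.intervalIntegrable _ _), intervalIntegral.integral_interval_sub_left
      (hc'.intervalIntegrable _ _) (hc'.intervalIntegrable _ _)]
  set η := (Real.cosh h - Real.cosh y₀) / (Real.cosh y₀ - 1) with hη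
  have h1 : ∫ t in a..c, ell h t ≤ ∫ t in a..c, (ell y₀ t + η) := by
    apply intervalIntegral.integral_mono_on hac (hc.intervalIntegrable _ _)
      ((hc'.add continuous_const).intervalIntegrable _ _)
    intro t _
    have := ell_diff (t := t) hy hh
    show ell h t ≤ ell y₀ t + η
    linarith
  refine h1.trans (le_of_eq ?_)
  rw [intervalIntegral.integral_add (hc'.intervalIntegrable _ _)
    (continuous_const.intervalIntegrable _ _), intervalIntegral.integral_const, smul_eq_mul]

lemma fac_mono' {u v h : ℝ} (φ : ℝ) (hv : |v| ≤ h) :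
    ‖(2 * Complex.cos (u + v * Complex.I) - 2 * (Real.cos φ : ℂ))‖ ≤
      ‖(2 * Complex.cos (u + h * Complex.I) - 2 * (Real.cos φ : ℂ))‖ := fac_mono u v h φ hv

theorem tby : Pool.Agent.Y472.S_TBY := by
  intro y₀ hy₀ _ ε hε
  have hπ := Real.pi_pos
  have hq := cosh_pos' hy₀
  -- the height
  obtain ⟨τ, hτ, hτη⟩ : ∃ τ : ℝ, 0 < τ ∧
      (Real.cosh (y₀ + τ) - Real.cosh y₀) / (Real.cosh y₀ - 1) ≤ ε / 4 := by
    have hcont : ContinuousAt (fun τ : ℝ =>
        (Real.cosh (y₀ + τ) - Real.cosh y₀) / (Real.cosh y₀ - 1)) 0 := by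
      apply ContinuousAt.div_const
      apply ContinuousAt.sub _ continuousAt_const
      exact (Real.continuous_cosh.comp (by fun_prop)).continuousAt
    have h1 : ∀ᶠ τ in 𝓝 (0:ℝ),
        (Real.cosh (y₀ + τ) - Real.cosh y₀) / (Real.cosh y₀ - 1) < ε / 4 := by
      apply hcont.eventually_lt continuousAt_const
      simp only [add_zero, sub_self, zero_div]
      positivity
    obtain ⟨r, hr, hball⟩ := Metric.eventually_nhds_iff.1 h1
    refine ⟨r / 2, by positivity, (hball ?_).le⟩
    rw [Real.dist_eq, sub_zero, abs_of_pos (by positivity)]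
    linarith
  refine ⟨τ, hτ, ?_⟩
  set h : ℝ := y₀ + τ with hh
  have hh0 : 0 < h := by positivity
  have hyh : y₀ ≤ h := by linarith
  set η := (Real.cosh h - Real.cosh y₀) / (Real.cosh y₀ - 1) with hη
  have hη0 : 0 ≤ η := by
    apply div_nonneg _ hq.le
    have : Real.cosh y₀ ≤ Real.cosh h := by
      rw [Real.cosh_le_cosh, abs_of_pos hy₀, abs_of_pos hh0]
      exact hyh
    linarith
  set C : ℝ := 2 * π / (Real.cosh h - 1) with hC
  have hqh := cosh_pos' hh0
  have hCN : ∀ᶠ N : ℕ in atTop, C ≤ ε / 8 * N := by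
    have h1 : Tendsto (fun N : ℕ => ε / 8 * (N : ℝ)) atTop atTop :=
      Tendsto.const_mul_atTop (by positivity) tendsto_natCast_atTop_atTop
    exact h1.eventually_ge_atTop C
  filter_upwards [Pool.Agent.H811R3.EvenVolR.taskR (ε / 16) (by positivity), hCN] with N hR hCN
  intro y x hyx hx u v hu hv
  have hN : 0 < N := by omega
  have hNR : (0 : ℝ) < N := by exact_mod_cast hN
  have hy : y < N := by omega
  have hSx := Sd_pos hx
  have hSy := Sd_pos hy
  obtain ⟨b, hbπ, hbu, hb⟩ := exists_b hu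
  have hvh : |v| ≤ h := by
    have h1 := abs_le.1 hv
    rw [abs_le]
    constructor <;> [linarith; linarith]
  -- the fixed height
  have hstep : ‖∏ t ∈ Ioc y x, (2 * Complex.cos (u + v * Complex.I) -
      2 * (Real.cos (2 * π * t / N) : ℂ))‖ ≤ ∏ t ∈ Ioc y x,
      ‖(-2 * Complex.cos (-b + h * Complex.I) - 2 * (Real.cos (2 * π * t / N) : ℂ))‖ := by
    rw [norm_prod]
    refine Finset.prod_le_prod (fun _ _ => norm_nonneg _) fun t _ => ?_
    rw [← fac b u h _ hb]
    exact fac_mono u v h _ hvh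
  refine hstep.trans ?_
  set P := ∏ t ∈ Ioc y x,
      ‖(-2 * Complex.cos (-b + h * Complex.I) - 2 * (Real.cos (2 * π * t / N) : ℂ))‖ with hP
  have hPpos : 0 < P := Finset.prod_pos fun t _ => (log_factor hh0 le_rfl).1
  have hlog : Real.log P = ∑ t ∈ Ioc y x, (ell h (b + 2 * π * t / N) +
      ell h (b - 2 * π * t / N)) / 2 := by
    rw [hP, Real.log_prod]
    · exact Finset.sum_congr rfl fun t _ => (log_factor hh0 le_rfl).2
    · exact fun t _ => (log_factor hh0 le_rfl).1.ne'
  have h1 := (abs_le.1 (rsum hh0 hN b y x hyx)).2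
  rw [← hlog] at h1
  have hxN : (x : ℝ) ≤ N := by exact_mod_cast hx.le
  have hxy' : (y : ℝ) ≤ x := by exact_mod_cast hyx
  have hy0 : (0 : ℝ) ≤ y := Nat.cast_nonneg y
  have hxy : ((x : ℝ) - y) * (2 * π / N / (Real.cosh h - 1)) ≤ C := by
    calc ((x : ℝ) - y) * (2 * π / N / (Real.cosh h - 1)) ≤ N * (2 * π / N / (Real.cosh h - 1)) := by
          apply mul_le_mul_of_nonneg_right (by linarith)
          positivity
      _ = C := by rw [hC]; field_simp
  -- change of the height in the integrals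
  have d1 := Lf_diff (a := b + 2 * π * y / N) (c := b + 2 * π * x / N) hy₀ hyh (by gcongr)
  have d2 := Lf_diff (a := b - 2 * π * x / N) (c := b - 2 * π * y / N) hy₀ hyh (by gcongr)
  rw [← hη] at d1 d2
  have h4 := abs_le.1 (hR x (by omega))
  have h5 := abs_le.1 (hR y (by omega))
  rw [← log_Sd hx] at h4
  rw [← log_Sd hy] at h5
  have ex := rhc_eq (h := y₀) (b := b) (u := u) hy₀ hb ((x : ℝ) / N)
  have ey := rhc_eq (h := y₀) (b := b) (u := u) hy₀ hb ((y : ℝ) / N)
  have ax : 2 * π * ((x : ℝ) / N) = 2 * π * x / N := by ring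
  have ay : 2 * π * ((y : ℝ) / N) = 2 * π * y / N := by ring
  have ax' : π * ((x : ℝ) / N) = π * x / N := by ring
  have ay' : π * ((y : ℝ) / N) = π * y / N := by ring
  rw [ax, ax'] at ex
  rw [ay, ay'] at ey
  have h6 : N / (4 * π) * ((Lf h (b + 2 * π * x / N) - Lf h (b + 2 * π * y / N)) +
        (Lf h (b - 2 * π * y / N) - Lf h (b - 2 * π * x / N))) ≤
      N / (4 * π) * ((Lf y₀ (b + 2 * π * x / N) - Lf y₀ (b + 2 * π * y / N)) +
        (Lf y₀ (b - 2 * π * y / N) - Lf y₀ (b - 2 * π * x / N))) + ε / 4 * N := by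
    have h7 : (Lf h (b + 2 * π * x / N) - Lf h (b + 2 * π * y / N)) +
        (Lf h (b - 2 * π * y / N) - Lf h (b - 2 * π * x / N)) ≤
        ((Lf y₀ (b + 2 * π * x / N) - Lf y₀ (b + 2 * π * y / N)) +
        (Lf y₀ (b - 2 * π * y / N) - Lf y₀ (b - 2 * π * x / N))) +
        4 * π * ((x - y) / N) * η := by
      have e1 : (b + 2 * π * x / N) - (b + 2 * π * y / N) = 2 * π * ((x - y) / N) := by ring
      have e2 : (b - 2 * π * y / N) - (b - 2 * π * x / N) = 2 * π * ((x - y) / N) := by ring
      rw [e1] at d1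
      rw [e2] at d2
      linarith
    have h8 := mul_le_mul_of_nonneg_left h7 (show 0 ≤ (N : ℝ) / (4 * π) by positivity)
    refine h8.trans ?_
    rw [mul_add]
    have e3 : (N : ℝ) / (4 * π) * (4 * π * ((x - y) / N) * η) = (x - y) * η := by
      field_simp
    rw [e3]
    have h9 : ((x : ℝ) - y) * η ≤ N * (ε / 4) :=
      mul_le_mul (by linarith) hτη hη0 hNR.le
    linarith
  have h10 : Real.log P ≤ 2 * Real.log (Sd N x) - 2 * Real.log (Sd N y) +
      N * (rhc ((x : ℝ) / N) (u + y₀ * Complex.I) - rhc ((y : ℝ) / N) (u + y₀ * Complex.I) +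
        ε) := by
    have e6 : N * (rhc ((x : ℝ) / N) (u + y₀ * Complex.I) -
        rhc ((y : ℝ) / N) (u + y₀ * Complex.I) + ε) =
        N / (4 * π) * ((Lf y₀ (b + 2 * π * x / N) - Lf y₀ (b + 2 * π * y / N)) +
        (Lf y₀ (b - 2 * π * y / N) - Lf y₀ (b - 2 * π * x / N))) +
        2 * (N / π * lob (π * x / N)) - 2 * (N / π * lob (π * y / N)) + ε * N := by
      rw [ex, ey]
      ring
    rw [e6]
    have h11 : 0 < ε * N := by positivity
    linarith [h4.1, h4.2, h5.1, h5.2]
  calc P = Real.exp (Real.log P) := (Real.exp_log hPpos).symm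
    _ ≤ Real.exp (2 * Real.log (Sd N x) - 2 * Real.log (Sd N y) +
      N * (rhc ((x : ℝ) / N) (u + y₀ * Complex.I) - rhc ((y : ℝ) / N) (u + y₀ * Complex.I) +
        ε)) := Real.exp_le_exp.2 h10
    _ = Sd N x ^ 2 / Sd N y ^ 2 *
        Real.exp (N * (rhc ((x : ℝ) / N) (u + y₀ * Complex.I) -
          rhc ((y : ℝ) / N) (u + y₀ * Complex.I) + ε)) := by
        rw [Real.exp_add, Real.exp_sub]
        congr 1
        rw [two_mul, two_mul, Real.exp_add, Real.exp_add, Real.exp_log hSx, Real.exp_log hSy, sq, sq]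

end Pool.Agent.Y46.CB
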